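import Mathlib

set_option autoImplicit false

/-! Finite connected pieces of hypergraphs with edges of bounded size. -/

namespace Pool.Agent.TH783.Pol

open Set

variable {T : Type} (S : T → Finset ℕ)

/-- `u` and `v` are outside `F` and in a common edge from `D`. -/
def Adj (D : Set T) (F : Set ℕ) (u v : ℕ) : Prop :=
  u ∉ F ∧ v ∉ F ∧ ∃ e ∈ D, u ∈ S e ∧ v ∈ S e

/-- The vertices outside `F` of the edges in `D`. -/
def Vx (D : Set T) (F : Set ℕ) : Set ℕ := {u | u ∉ F ∧ ∃ e ∈ D, u ∈ S e}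

/-- Connected outside `F`. -/
def Conn (D : Set T) (F : Set ℕ) : Prop :=
  ∀ u ∈ Vx S D F, ∀ v ∈ Vx S D F, Relation.ReflTransGen (Adj S D F) u v

/-- There are arbitrarily large connected pieces outside `F` avoiding any given finite set. -/
def Good (F : Finset ℕ) : Prop := ∀ W : Finset ℕ, F ⊆ W → ∀ N : ℕ, ∃ D : Finset T,
  (∀ e ∈ D, ∀ u ∈ S e, u ∈ W → u ∈ F) ∧ (∀ e ∈ D, ¬ S e ⊆ F) ∧
    Conn S (↑D : Set T) (↑F : Set ℕ) ∧ N ≤ (Vx S (↑D : Set T) (↑F : Set ℕ)).ncard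

theorem Vx_finite (D : Finset T) (F : Set ℕ) : (Vx S (↑D : Set T) F).Finite := by
  classical
  refine (D.biUnion S).finite_toSet.subset ?_
  rintro u ⟨-, e, he, hu⟩
  simp only [Finset.coe_biUnion, mem_iUnion]
  exact ⟨e, he, hu⟩

theorem bounded_of_not_good {r : ℕ} (hr : ∀ e, (S e).card ≤ r) (hno : ∀ F, ¬ Good S F) :
    ∃ W : Finset ℕ, ∀ u, u ∉ W → {v | ∃ e, u ∈ S e ∧ v ∈ S e}.Finite := by
  classical
  have h1 : ∀ F : Finset ℕ, ∃ W : Finset ℕ, F ⊆ W ∧ ∃ N : ℕ, ∀ D : Finset T,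
      (∀ e ∈ D, ∀ u ∈ S e, u ∈ W → u ∈ F) → (∀ e ∈ D, ¬ S e ⊆ F) →
      Conn S (↑D : Set T) (↑F : Set ℕ) → (Vx S (↑D : Set T) (↑F : Set ℕ)).ncard < N := by
    intro F
    have h := hno F
    unfold Good at h
    push Not at h
    obtain ⟨W, hW, N, hN⟩ := h
    exact ⟨W, hW, N, hN⟩
  choose w hw N hN using h1
  let W : ℕ → Finset ℕ := fun n => Nat.rec ∅ (fun _ F => w F) n
  have hWs : ∀ n, W (n + 1) = w (W n) := fun n => rfl
  have hmono : Monotone W := monotone_nat_of_le_succ (fun n => by rw [hWs]; exact hw _)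
  refine ⟨W (r + 1), fun u hu => ?_⟩
  -- the classes of neighbours
  let Nb : ℕ → Set ℕ := fun j => {v | v ∉ W (r + 1) ∧ ∃ e, (∀ x ∈ S e, x ∈ W (j + 1) → x ∈ W j) ∧
    u ∈ S e ∧ v ∈ S e}
  have hfin : ∀ j, j ≤ r → (Nb j).Finite := by
    intro j hj
    by_contra hinf
    obtain ⟨t, ht, htc⟩ := Set.Infinite.exists_subset_card_eq (s := Nb j) hinf (N (W j))
    have h2 : ∀ v : ℕ, ∃ e : T, v ∈ t → ((∀ x ∈ S e, x ∈ W (j + 1) → x ∈ W j) ∧
        u ∈ S e ∧ v ∈ S e) := by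
      intro v
      by_cases hv : v ∈ t
      · obtain ⟨-, e, he⟩ := ht hv
        exact ⟨e, fun _ => he⟩
      · by_cases hT : Nonempty T
        · exact ⟨hT.some, fun h => absurd h hv⟩
        · exfalso
          apply hinf
          refine Set.Finite.subset Set.finite_empty ?_
          rintro v ⟨-, e, -⟩
          exact (hT ⟨e⟩).elim
    choose e he using h2
    have huj : u ∉ W j := fun h => hu (hmono (show j ≤ r + 1 by omega) h)
    have h3 := hN (W j) (t.image e) ?_ ?_ ?_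
    · refine absurd h3 (not_lt.2 ?_)
      rw [← htc]
      rw [← Set.ncard_coe_finset t]
      refine Set.ncard_le_ncard ?_ (Vx_finite S _ _)
      intro v hv
      refine ⟨fun h => (ht hv).1 (hmono (show j ≤ r + 1 by omega) h), e v, ?_, ((he v hv).2).2⟩
      simp only [Finset.coe_image, mem_image]
      exact ⟨v, hv, rfl⟩
    · intro e' he' x hx hxW
      obtain ⟨v, hv, rfl⟩ := Finset.mem_image.1 he'
      exact (he v hv).1 x hx hxW
    · intro e' he' hsub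
      obtain ⟨v, hv, rfl⟩ := Finset.mem_image.1 he'
      exact huj (hsub (he v hv).2.1)
    · -- connected through `u`
      have hall : ∀ e' ∈ t.image e, u ∈ S e' := by
        intro e' he'
        obtain ⟨v, hv, rfl⟩ := Finset.mem_image.1 he'
        exact (he v hv).2.1
      rintro x ⟨hx1, ex, hex, hx2⟩ y ⟨hy1, ey, hey, hy2⟩
      exact (Relation.ReflTransGen.single (b := u) ⟨hx1, huj, ex, hex, hx2, hall ex hex⟩).trans
        (Relation.ReflTransGen.single ⟨huj, hy1, ey, hey, hall ey hey, hy2⟩)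
  have hsub : {v | ∃ e, u ∈ S e ∧ v ∈ S e} ⊆ (↑(W (r + 1)) : Set ℕ) ∪ ⋃ j ∈ Finset.range (r + 1),
      Nb j := by
    rintro v ⟨e, hue, hve⟩
    by_cases hv : v ∈ W (r + 1)
    · exact Or.inl hv
    right
    simp only [mem_iUnion]
    refine Classical.by_contradiction fun hcon => ?_
    push Not at hcon
    have h5 : ∀ j : Fin (r + 1), ∃ x ∈ S e, x ∈ W (j + 1) ∧ x ∉ W j := by
      intro j
      refine Classical.by_contradiction fun hc => ?_
      push Not at hc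
      exact hcon j (Finset.mem_range.2 j.2) ⟨hv, e, hc, hue, hve⟩
    choose x hx1 hx2 hx3 using h5
    have hlt : ∀ j j' : Fin (r + 1), j < j' → x j ≠ x j' := by
      intro j j' hjj h
      have hjj' : (j : ℕ) + 1 ≤ j' := hjj
      have : x j ∈ W j' := hmono hjj' (hx2 j)
      rw [h] at this
      exact hx3 j' this
    have hinj : Function.Injective x := by
      intro j j' h
      rcases lt_trichotomy j j' with h1 | h1 | h1
      · exact absurd h (hlt _ _ h1)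
      · exact h1
      · exact absurd h.symm (hlt _ _ h1)
    have h6 : Fintype.card (Fin (r + 1)) ≤ (S e).card :=
      Finset.card_le_card_of_injOn (s := Finset.univ) x (fun j _ => hx1 j)
        (fun j _ j' _ h => hinj h)
    rw [Fintype.card_fin] at h6
    have := hr e
    omega
  refine Set.Finite.subset ?_ hsub
  refine (W (r + 1)).finite_toSet.union ?_
  refine Set.Finite.biUnion (Finset.finite_toSet _) ?_
  intro j hj
  exact hfin j (by
    have := Finset.mem_range.1 hj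
    omega)

/-- A sequence of disjoint connected pieces of increasing sizes. -/
theorem seq_of_good {F : Finset ℕ} (hF : Good S F) :
    ∃ (F' : Finset ℕ) (D : ℕ → Finset T),
      (∀ n, ∀ e ∈ D n, ¬ S e ⊆ F') ∧
      (∀ n, Conn S (↑(D n) : Set T) (↑F' : Set ℕ)) ∧
      (∀ m n, m ≠ n → Disjoint (Vx S (↑(D m) : Set T) (↑F' : Set ℕ))
        (Vx S (↑(D n) : Set T) (↑F' : Set ℕ))) ∧
      StrictMono (fun n => (Vx S (↑(D n) : Set T) (↑F' : Set ℕ)).ncard) ∧
      (∀ n, 2 ≤ (Vx S (↑(D n) : Set T) (↑F' : Set ℕ)).ncard) ∧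
      (∀ f ∈ F', ∀ n, ∃ e ∈ D n, f ∈ S e) := by
  classical
  have h1 : ∀ (W : Finset ℕ) (N : ℕ), ∃ D : Finset T,
      (∀ e ∈ D, ∀ u ∈ S e, u ∈ W → u ∈ F) ∧ (∀ e ∈ D, ¬ S e ⊆ F) ∧
      Conn S (↑D : Set T) (↑F : Set ℕ) ∧ N ≤ (Vx S (↑D : Set T) (↑F : Set ℕ)).ncard := by
    intro W N
    obtain ⟨D, hD1, hD2, hD3, hD4⟩ := hF (F ∪ W) Finset.subset_union_left N
    exact ⟨D, fun e he u hu hW => hD1 e he u hu (Finset.mem_union_right _ hW), hD2, hD3, hD4⟩
  choose d hd1 hd2 hd3 hd4 using h1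
  -- the states: vertices used so far and the bound
  obtain ⟨st, hst0, hst'⟩ : ∃ st : ℕ → Finset ℕ × ℕ, st 0 = (∅, 2) ∧ ∀ n, st (n + 1) =
      ((st n).1 ∪ (d (st n).1 (st n).2).biUnion S,
        (Vx S (↑(d (st n).1 (st n).2) : Set T) (↑F : Set ℕ)).ncard + 1) :=
    ⟨fun n => Nat.rec (∅, 2) (fun _ s => (s.1 ∪ (d s.1 s.2).biUnion S,
      (Vx S (↑(d s.1 s.2) : Set T) (↑F : Set ℕ)).ncard + 1)) n, rfl, fun n => rfl⟩
  obtain ⟨D0, hD0⟩ : ∃ D0 : ℕ → Finset T, ∀ n, D0 n = d (st n).1 (st n).2 := ⟨_, fun n => rfl⟩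
  have hst : ∀ n, st (n + 1) = ((st n).1 ∪ (D0 n).biUnion S,
      (Vx S (↑(D0 n) : Set T) (↑F : Set ℕ)).ncard + 1) := by
    intro n
    rw [hst', hD0]
  have hm1 : Monotone fun n => (st n).1 := by
    refine monotone_nat_of_le_succ fun n => ?_
    show (st n).1 ⊆ (st (n + 1)).1
    rw [hst]
    exact Finset.subset_union_left
  have hV : ∀ n, Vx S (↑(D0 n) : Set T) (↑F : Set ℕ) ⊆ ↑(st (n + 1)).1 := by
    rintro n u ⟨-, e, he, hu⟩
    rw [hst]
    exact Finset.mem_coe.2 (Finset.mem_union_right _ (Finset.mem_biUnion.2 ⟨e, he, hu⟩))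
  have hdis : ∀ m n, m < n → Disjoint (Vx S (↑(D0 m) : Set T) (↑F : Set ℕ))
      (Vx S (↑(D0 n) : Set T) (↑F : Set ℕ)) := by
    intro m n hmn
    rw [Set.disjoint_left]
    rintro u hu ⟨hu1, e, he, hu2⟩
    have h2 : u ∈ (st n).1 := hm1 (show m + 1 ≤ n from hmn) (hV m hu)
    rw [hD0] at he
    exact hu1 (hd1 _ _ e he u hu2 h2)
  have hsz : StrictMono fun n => (Vx S (↑(D0 n) : Set T) (↑F : Set ℕ)).ncard := by
    refine strictMono_nat_of_lt_succ fun n => ?_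
    have h2 := hd4 (st (n + 1)).1 (st (n + 1)).2
    rw [← hD0] at h2
    have h3 : (st (n + 1)).2 = (Vx S (↑(D0 n) : Set T) (↑F : Set ℕ)).ncard + 1 := by rw [hst]
    rw [h3] at h2
    exact h2
  have hsz2 : ∀ n, 2 ≤ (Vx S (↑(D0 n) : Set T) (↑F : Set ℕ)).ncard := by
    intro n
    have h2 : 2 ≤ (Vx S (↑(D0 0) : Set T) (↑F : Set ℕ)).ncard := by
      rw [hD0, hst0]
      exact hd4 ∅ 2
    exact h2.trans (hsz.monotone (Nat.zero_le n))
  -- thinning out
  let A : ℕ → {X : Finset ℕ // X ∈ F.powerset} := fun n =>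
    ⟨F.filter (fun f => ∃ e ∈ D0 n, f ∈ S e), Finset.mem_powerset.2 (Finset.filter_subset _ _)⟩
  obtain ⟨X, hX⟩ := Finite.exists_infinite_fiber A
  rw [Set.infinite_coe_iff] at hX
  let κ : ℕ → ℕ := Nat.nth (fun n => A n = X)
  have hκm : StrictMono κ := Nat.nth_strictMono hX
  have hκ : ∀ n, A (κ n) = X := fun n => Nat.nth_mem_of_infinite hX n
  have hXF : X.1 ⊆ F := Finset.mem_powerset.1 X.2
  have hκ2 : ∀ n, ∀ f, f ∈ X.1 ↔ f ∈ F ∧ ∃ e ∈ D0 (κ n), f ∈ S e := by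
    intro n f
    rw [← hκ n]
    simp [A]
  have hVe : ∀ n, Vx S (↑(D0 (κ n)) : Set T) (↑X.1 : Set ℕ) =
      Vx S (↑(D0 (κ n)) : Set T) (↑F : Set ℕ) := by
    intro n
    ext u
    constructor
    · rintro ⟨h2, e, he, hu⟩
      refine ⟨fun h3 => h2 ?_, e, he, hu⟩
      exact (hκ2 n u).2 ⟨h3, e, he, hu⟩
    · rintro ⟨h2, e, he, hu⟩
      exact ⟨fun h3 => h2 (hXF h3), e, he, hu⟩
  refine ⟨X.1, fun n => D0 (κ n), ?_, ?_, ?_, ?_, ?_, ?_⟩
  · intro n e he h
    have he' : e ∈ d (st (κ n)).1 (st (κ n)).2 := by rw [← hD0]; exact he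
    exact hd2 _ _ e he' (h.trans hXF)
  · intro n u hu v hv
    rw [hVe] at hu hv
    have hc := hd3 (st (κ n)).1 (st (κ n)).2
    rw [← hD0] at hc
    refine Relation.ReflTransGen.mono ?_ _ _ (hc u hu v hv)
    rintro x y ⟨hx, hy, h⟩
    exact ⟨fun h' => hx (hXF h'), fun h' => hy (hXF h'), h⟩
  · intro m n hmn
    rw [hVe, hVe]
    rcases lt_or_gt_of_ne hmn with h | h
    · exact hdis _ _ (hκm h)
    · exact (hdis _ _ (hκm h)).symm
  · intro m n hmn
    simp only [hVe]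
    exact hsz (hκm hmn)
  · intro n
    rw [hVe]
    exact hsz2 _
  · intro f hf n
    exact ((hκ2 n f).1 hf).2

end Pool.Agent.TH783.Pol
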