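import Pool.Agent.TH783.Pol.Comb
import Pool.Agent.H533R2.VS.All2

set_option autoImplicit false

/-! Perfect sets of weak substructures. -/

namespace Pool.Agent.TH783.Pol

open Set
open Pool.Agent.H533R2.VO (RS RIso Dich VC)
open Pool.Agent.H899R2.VP (gaifman HasCliqueSubdivision)

variable {a : ℕ → ℕ}

/-- The neighbours of `u`. -/
def nbr (x : RS a) (u : ℕ) : Set ℕ :=
  {v | v ≠ u ∧ ∃ i, ∃ t : Fin (a i) → ℕ, x i t = true ∧ u ∈ range t ∧ v ∈ range t}

/-- The vertices of infinite degree. -/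
def Ifd (x : RS a) : Set ℕ := {u | (nbr x u).Infinite}

/-- Adjacency outside the vertices of infinite degree. -/
def adj (x : RS a) (u v : ℕ) : Prop := u ∉ Ifd x ∧ v ∉ Ifd x ∧ v ∈ nbr x u

/-- The component of `u`. -/
def comp (x : RS a) (u : ℕ) : Set ℕ := {v | Relation.ReflTransGen (adj x) u v}

/-- The sizes of the components. -/
def sizes (x : RS a) : Set ℕ := {n | ∃ u, u ∉ Ifd x ∧ (comp x u).ncard = n}

theorem nbr_iso {x y : RS a} {σ : Equiv.Perm ℕ}
    (h : ∀ (i : ℕ) (v : Fin (a i) → ℕ), y i (⇑σ ∘ v) = x i v) (u v : ℕ) :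
    σ v ∈ nbr y (σ u) ↔ v ∈ nbr x u := by
  constructor
  · rintro ⟨h1, i, t, h2, ⟨j, hj⟩, k, hk⟩
    refine ⟨fun h3 => h1 (by rw [h3]), i, ⇑σ.symm ∘ t, ?_, ⟨j, ?_⟩, k, ?_⟩
    · rw [← h]
      have : (⇑σ ∘ (⇑σ.symm ∘ t)) = t := by funext l; simp
      rw [this]
      exact h2
    · simp [hj]
    · simp [hk]
  · rintro ⟨h1, i, t, h2, ⟨j, hj⟩, k, hk⟩
    refine ⟨fun h3 => h1 (σ.injective h3), i, ⇑σ ∘ t, ?_, ⟨j, by simp [hj]⟩, k, by simp [hk]⟩
    rw [h]
    exact h2

theorem Ifd_iso {x y : RS a} {σ : Equiv.Perm ℕ}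
    (h : ∀ (i : ℕ) (v : Fin (a i) → ℕ), y i (⇑σ ∘ v) = x i v) (u : ℕ) :
    σ u ∈ Ifd y ↔ u ∈ Ifd x := by
  have h1 : nbr y (σ u) = σ '' nbr x u := by
    ext v
    constructor
    · intro hv
      refine ⟨σ.symm v, ?_, by simp⟩
      rw [← nbr_iso h]
      simpa using hv
    · rintro ⟨w, hw, rfl⟩
      exact (nbr_iso h _ _).2 hw
  show (nbr y (σ u)).Infinite ↔ (nbr x u).Infinite
  rw [h1]
  exact Set.infinite_image_iff σ.injective.injOn

theorem adj_iso {x y : RS a} {σ : Equiv.Perm ℕ}
    (h : ∀ (i : ℕ) (v : Fin (a i) → ℕ), y i (⇑σ ∘ v) = x i v) (u v : ℕ) :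
    adj y (σ u) (σ v) ↔ adj x u v := by
  unfold adj
  rw [Ifd_iso h, Ifd_iso h, nbr_iso h]

theorem comp_iso {x y : RS a} {σ : Equiv.Perm ℕ}
    (h : ∀ (i : ℕ) (v : Fin (a i) → ℕ), y i (⇑σ ∘ v) = x i v) (u : ℕ) :
    comp y (σ u) = σ '' comp x u := by
  ext v
  constructor
  · intro hv
    refine ⟨σ.symm v, ?_, by simp⟩
    have h1 : ∀ w, Relation.ReflTransGen (adj y) (σ u) w →
        Relation.ReflTransGen (adj x) u (σ.symm w) := by
      intro w hw
      induction hw with
      | refl => simpa using Relation.ReflTransGen.refl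
      | tail _ h3 ih =>
        refine ih.tail ?_
        rw [← adj_iso h]
        simpa using h3
    exact h1 v hv
  · rintro ⟨w, hw, rfl⟩
    have h1 : ∀ w, Relation.ReflTransGen (adj x) u w →
        Relation.ReflTransGen (adj y) (σ u) (σ w) := by
      intro w hw
      induction hw with
      | refl => exact Relation.ReflTransGen.refl
      | tail _ h3 ih => exact ih.tail ((adj_iso h _ _).2 h3)
    exact h1 w hw

theorem sizes_iso {x y : RS a} {σ : Equiv.Perm ℕ}
    (h : ∀ (i : ℕ) (v : Fin (a i) → ℕ), y i (⇑σ ∘ v) = x i v) : sizes x = sizes y := by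
  ext n
  constructor
  · rintro ⟨u, hu, hn⟩
    refine ⟨σ u, fun h' => hu ((Ifd_iso h u).1 h'), ?_⟩
    rw [comp_iso h, Set.ncard_image_of_injective _ σ.injective]
    exact hn
  · rintro ⟨u, hu, hn⟩
    refine ⟨σ.symm u, fun h' => hu ?_, ?_⟩
    · have := (Ifd_iso h (σ.symm u)).2 h'
      simpa using this
    · have := comp_iso h (σ.symm u)
      rw [σ.apply_symm_apply] at this
      rw [this, Set.ncard_image_of_injective _ σ.injective] at hn
      exact hn

/-- The tuples of `x` with at least two entries. -/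
abbrev Tu (x : RS a) : Type := {p : Σ i, (Fin (a i) → ℕ) // x p.1 p.2 = true ∧ 2 ≤ a p.1}

/-- The support of a tuple. -/
def sup (x : RS a) (p : Tu x) : Finset ℕ := Finset.univ.image p.1.2

theorem mem_sup {x : RS a} {p : Tu x} {u : ℕ} : u ∈ sup x p ↔ u ∈ range p.1.2 := by
  simp [sup]

open Classical in
/-- Keep the tuples in the pieces with numbers `2 n + c n`. -/
noncomputable def keep (x : RS a) (D : ℕ → Finset (Tu x)) (c : ℕ → Bool) : RS a := fun i t =>
  if 2 ≤ a i then decide (∃ n, ∃ h : x i t = true ∧ 2 ≤ a i,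
    (⟨⟨i, t⟩, h⟩ : Tu x) ∈ D (2 * n + (c n).toNat)) else x i t

theorem keep_true {x : RS a} {D : ℕ → Finset (Tu x)} {c : ℕ → Bool} {i : ℕ} {t : Fin (a i) → ℕ}
    (hi : 2 ≤ a i) : keep x D c i t = true ↔ ∃ n, ∃ h : x i t = true ∧ 2 ≤ a i,
      (⟨⟨i, t⟩, h⟩ : Tu x) ∈ D (2 * n + (c n).toNat) := by
  simp only [keep, if_pos hi, decide_eq_true_eq]

theorem nbr_keep {x : RS a} {D : ℕ → Finset (Tu x)} {c : ℕ → Bool} {u v : ℕ} :
    v ∈ nbr (keep x D c) u ↔ v ≠ u ∧ ∃ n, ∃ p ∈ D (2 * n + (c n).toNat), u ∈ sup x p ∧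
      v ∈ sup x p := by
  constructor
  · rintro ⟨h1, i, t, h2, h3, h4⟩
    have hi : 2 ≤ a i := by
      obtain ⟨j, hj⟩ := h3
      obtain ⟨k, hk⟩ := h4
      by_contra hlt
      have : j = k := by
        have := j.2
        have := k.2
        exact Fin.ext (by omega)
      apply h1
      rw [← hj, ← hk, this]
    obtain ⟨n, h, hp⟩ := (keep_true hi).1 h2
    exact ⟨h1, n, _, hp, mem_sup.2 h3, mem_sup.2 h4⟩
  · rintro ⟨h1, n, p, hp, h3, h4⟩
    refine ⟨h1, p.1.1, p.1.2, ?_, mem_sup.1 h3, mem_sup.1 h4⟩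
    exact (keep_true p.2.2).2 ⟨n, p.2, hp⟩

section fam

variable {x : RS a} {F : Finset ℕ} {D : ℕ → Finset (Tu x)}

/-- The properties of the pieces. -/
structure Pcs (x : RS a) (F : Finset ℕ) (D : ℕ → Finset (Tu x)) : Prop where
  out : ∀ n, ∀ e ∈ D n, ¬ sup x e ⊆ F
  conn : ∀ n, Conn (sup x) (↑(D n) : Set (Tu x)) (↑F : Set ℕ)
  disj : ∀ m n, m ≠ n → Disjoint (Vx (sup x) (↑(D m) : Set (Tu x)) (↑F : Set ℕ))
    (Vx (sup x) (↑(D n) : Set (Tu x)) (↑F : Set ℕ))
  mono : StrictMono (fun n => (Vx (sup x) (↑(D n) : Set (Tu x)) (↑F : Set ℕ)).ncard)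
  two : ∀ n, 2 ≤ (Vx (sup x) (↑(D n) : Set (Tu x)) (↑F : Set ℕ)).ncard
  fix : ∀ f ∈ F, ∀ n, ∃ e ∈ D n, f ∈ sup x e

theorem Pcs.uniq (h : Pcs x F D) {m n : ℕ} {e : Tu x} (hm : e ∈ D m) (hn : e ∈ D n) : m = n := by
  by_contra hne
  obtain ⟨u, hu, huF⟩ : ∃ u ∈ sup x e, u ∉ F := by
    by_contra hc
    push Not at hc
    exact h.out m e hm hc
  exact Set.disjoint_left.1 (h.disj m n hne) ⟨huF, e, hm, hu⟩ ⟨huF, e, hn, hu⟩

theorem Pcs.uniq' (h : Pcs x F D) {m n : ℕ} {e e' : Tu x} {u : ℕ} (hu : u ∉ F) (hm : e ∈ D m)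
    (hue : u ∈ sup x e) (hn : e' ∈ D n) (hue' : u ∈ sup x e') : m = n := by
  by_contra hne
  exact Set.disjoint_left.1 (h.disj m n hne) ⟨hu, e, hm, hue⟩ ⟨hu, e', hn, hue'⟩

theorem Pcs.ifd (h : Pcs x F D) (c : ℕ → Bool) (u : ℕ) : u ∈ Ifd (keep x D c) ↔ u ∈ F := by
  constructor
  · intro hu
    by_contra huF
    apply hu
    by_cases hex : ∃ n, ∃ p ∈ D (2 * n + (c n).toNat), u ∈ sup x p
    · obtain ⟨n, p, hp, hup⟩ := hex
      refine Set.Finite.subset ((D (2 * n + (c n).toNat)).biUnion (sup x)).finite_toSet ?_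
      intro v hv
      obtain ⟨-, m, q, hq, huq, hvq⟩ := nbr_keep.1 hv
      have := h.uniq' huF hq huq hp hup
      rw [this] at hq
      exact Finset.mem_coe.2 (Finset.mem_biUnion.2 ⟨q, hq, hvq⟩)
    · refine Set.Finite.subset Set.finite_empty ?_
      intro v hv
      obtain ⟨-, m, q, hq, huq, hvq⟩ := nbr_keep.1 hv
      exact hex ⟨m, q, hq, huq⟩
  · intro hu
    have h1 : ∀ n, ∃ v, v ∉ F ∧ ∃ e ∈ D n, u ∈ sup x e ∧ v ∈ sup x e := by
      intro n
      obtain ⟨e, he, hue⟩ := h.fix u hu n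
      obtain ⟨v, hv, hvF⟩ : ∃ v ∈ sup x e, v ∉ F := by
        by_contra hc
        push Not at hc
        exact h.out n e he hc
      exact ⟨v, hvF, e, he, hue, hv⟩
    choose v hv1 e he hue hve using h1
    have hinj : Function.Injective fun n : ℕ => v (2 * n + (c n).toNat) := by
      intro m n hmn
      simp only at hmn
      have := h.uniq' (hv1 _) (he (2 * m + (c m).toNat)) (hve _) (he (2 * n + (c n).toNat))
        (by rw [hmn]; exact hve _)
      have h5 := Bool.toNat_le (c m)
      have h6 := Bool.toNat_le (c n)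
      omega
    refine Set.Infinite.mono ?_ (Set.infinite_range_of_injective hinj)
    rintro _ ⟨n, rfl⟩
    refine nbr_keep.2 ⟨?_, n, _, he _, hue _, hve _⟩
    intro h2
    apply hv1 (2 * n + (c n).toNat)
    change v (2 * n + (c n).toNat) = u at h2
    rw [h2]
    exact hu

theorem Pcs.comp_eq (h : Pcs x F D) (c : ℕ → Bool) {n u : ℕ}
    (hu : u ∈ Vx (sup x) (↑(D (2 * n + (c n).toNat)) : Set (Tu x)) (↑F : Set ℕ)) :
    comp (keep x D c) u = Vx (sup x) (↑(D (2 * n + (c n).toNat)) : Set (Tu x)) (↑F : Set ℕ) := by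
  ext v
  constructor
  · intro hv
    change Relation.ReflTransGen _ u v at hv
    induction hv with
    | refl => exact hu
    | tail _ h3 ih =>
      obtain ⟨h4, h5, h6⟩ := h3
      rw [h.ifd] at h4 h5
      obtain ⟨-, m, q, hq, huq, hvq⟩ := nbr_keep.1 h6
      obtain ⟨ih1, e, he, ih2⟩ := ih
      have := h.uniq' h4 hq huq he ih2
      rw [this] at hq
      exact ⟨h5, q, hq, hvq⟩
  · intro hv
    have h0 := h.conn _ u hu v hv
    change Relation.ReflTransGen _ u v
    clear hv
    induction h0 with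
    | refl => exact Relation.ReflTransGen.refl
    | @tail y z _ hyz ih =>
      obtain ⟨h1, h2, e, he, h3, h4⟩ := hyz
      by_cases hne : z = y
      · rw [hne]
        exact ih
      · exact ih.tail ⟨fun h' => h1 ((h.ifd c y).1 h'), fun h' => h2 ((h.ifd c z).1 h'),
          nbr_keep.2 ⟨hne, n, e, he, h3, h4⟩⟩

theorem Pcs.sizes_iff (h : Pcs x F D) (c : ℕ → Bool) (m : ℕ) :
    (Vx (sup x) (↑(D m) : Set (Tu x)) (↑F : Set ℕ)).ncard ∈ sizes (keep x D c) ↔
      ∃ n, m = 2 * n + (c n).toNat := by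
  constructor
  · rintro ⟨u, hu, hn⟩
    by_cases hex : ∃ n, ∃ p ∈ D (2 * n + (c n).toNat), u ∈ sup x p
    · obtain ⟨n, p, hp, hup⟩ := hex
      have hu' : u ∉ F := fun h' => hu ((h.ifd c u).2 h')
      rw [h.comp_eq c ⟨hu', p, hp, hup⟩] at hn
      exact ⟨n, (h.mono.injective hn).symm⟩
    · exfalso
      have h1 : comp (keep x D c) u = {u} := by
        ext v
        constructor
        · intro hv
          change Relation.ReflTransGen _ u v at hv
          induction hv with
          | refl => rfl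
          | tail _ h3 ih =>
            exfalso
            change _ = u at ih
            obtain ⟨h4, h5, h6⟩ := h3
            obtain ⟨-, m, q, hq, huq, hvq⟩ := nbr_keep.1 h6
            rw [ih] at huq
            exact hex ⟨m, q, hq, huq⟩
        · rintro rfl
          exact Relation.ReflTransGen.refl
      rw [h1, Set.ncard_singleton] at hn
      have := h.two m
      omega
  · rintro ⟨n, rfl⟩
    have h1 := h.two (2 * n + (c n).toNat)
    obtain ⟨u, hu⟩ : (Vx (sup x) (↑(D (2 * n + (c n).toNat)) : Set (Tu x))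
        (↑F : Set ℕ)).Nonempty := by
      rw [Set.nonempty_iff_ne_empty]
      intro h2
      rw [h2] at h1
      simp at h1
    exact ⟨u, fun h' => hu.1 ((h.ifd c u).1 h'), by rw [h.comp_eq c hu]⟩

theorem Pcs.inj (h : Pcs x F D) {c d : ℕ → Bool} (hcd : RIso (keep x D c) (keep x D d)) :
    c = d := by
  obtain ⟨σ, hσ⟩ := hcd
  have hs := sizes_iso hσ
  funext n
  have h1 := (h.sizes_iff c (2 * n + (c n).toNat)).2 ⟨n, rfl⟩
  rw [hs, h.sizes_iff] at h1
  obtain ⟨m, hm⟩ := h1
  have h5 := Bool.toNat_le (c n)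
  have h6 := Bool.toNat_le (d m)
  have h7 : m = n := by omega
  rw [h7] at hm
  have h8 : (c n).toNat = (d n).toNat := by omega
  cases hc : c n <;> cases hd : d n <;> simp [hc, hd] at h8 ⊢

theorem Pcs.cont (h : Pcs x F D) : Continuous (keep x D) := by
  refine continuous_pi fun i => continuous_pi fun t => ?_
  by_cases hi : 2 ≤ a i
  · by_cases hx : x i t = true
    · by_cases hex : ∃ m, (⟨⟨i, t⟩, ⟨hx, hi⟩⟩ : Tu x) ∈ D m
      · obtain ⟨m, hm⟩ := hex
        have : (fun c : ℕ → Bool => keep x D c i t) =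
            fun c => decide ((c (m / 2)).toNat = m % 2) := by
          funext c
          rw [Bool.eq_iff_iff, keep_true hi, decide_eq_true_eq]
          constructor
          · rintro ⟨n, h1, h2⟩
            have h3 := h.uniq h2 hm
            have h6 := Bool.toNat_le (c n)
            have h7 : m / 2 = n := by omega
            rw [h7]
            omega
          · intro h1
            refine ⟨m / 2, ⟨hx, hi⟩, ?_⟩
            rw [h1]
            have : 2 * (m / 2) + m % 2 = m := by omega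
            rw [this]
            exact hm
        rw [this]
        exact (continuous_of_discreteTopology
          (f := fun b : Bool => decide (b.toNat = m % 2))).comp (continuous_apply (m / 2))
      · have : (fun c : ℕ → Bool => keep x D c i t) = fun _ => false := by
          funext c
          rw [Bool.eq_false_iff]
          intro h1
          obtain ⟨n, h2, h3⟩ := (keep_true hi).1 h1
          exact hex ⟨_, h3⟩
        rw [this]
        exact continuous_const
    · have : (fun c : ℕ → Bool => keep x D c i t) = fun _ => false := by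
        funext c
        rw [Bool.eq_false_iff]
        intro h1
        obtain ⟨n, h2, h3⟩ := (keep_true hi).1 h1
        exact hx h2.1
      rw [this]
      exact continuous_const
  · have : (fun c : ℕ → Bool => keep x D c i t) = fun _ => x i t := by
      funext c
      simp only [keep, if_neg hi]
    rw [this]
    exact continuous_const

end fam

open Classical in
/-- Delete the relations with the numbers `κ n`, `c n = false`. -/
noncomputable def drop (x : RS a) (κ : ℕ → ℕ) (c : ℕ → Bool) : RS a := fun i t =>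
  if ∃ n, κ n = i ∧ c n = false then false else x i t

theorem drop_cont (x : RS a) {κ : ℕ → ℕ} (hκ : Function.Injective κ) :
    Continuous (drop x κ) := by
  refine continuous_pi fun i => continuous_pi fun t => ?_
  by_cases hex : ∃ n, κ n = i
  · obtain ⟨n, hn⟩ := hex
    have : (fun c : ℕ → Bool => drop x κ c i t) = fun c => c n && x i t := by
      funext c
      by_cases hc : c n = false
      · simp only [drop, if_pos (⟨n, hn, hc⟩ : ∃ n, κ n = i ∧ c n = false), hc, Bool.false_and]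
      · have h1 : ¬ ∃ n, κ n = i ∧ c n = false := by
          rintro ⟨m, hm, hcm⟩
          rw [hκ (hm.trans hn.symm)] at hcm
          exact hc hcm
        simp only [drop, if_neg h1]
        rw [Bool.not_eq_false] at hc
        rw [hc, Bool.true_and]
    rw [this]
    exact (continuous_of_discreteTopology (f := fun b : Bool => b && x i t)).comp
      (continuous_apply n)
  · have : (fun c : ℕ → Bool => drop x κ c i t) = fun _ => x i t := by
      funext c
      have h1 : ¬ ∃ n, κ n = i ∧ c n = false := fun ⟨n, hn, _⟩ => hex ⟨n, hn⟩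
      simp only [drop, if_neg h1]
    rw [this]
    exact continuous_const

theorem drop_inj {x : RS a} {κ : ℕ → ℕ} (hκ : Function.Injective κ)
    (hx : ∀ n, ∃ t, x (κ n) t = true) {c d : ℕ → Bool} (h : RIso (drop x κ c) (drop x κ d)) :
    c = d := by
  have key : ∀ (c : ℕ → Bool) (n : ℕ), (∃ t, drop x κ c (κ n) t = true) ↔ c n = true := by
    intro c n
    constructor
    · rintro ⟨t, ht⟩
      by_contra hc
      rw [Bool.not_eq_true] at hc
      simp only [drop, if_pos (⟨n, rfl, hc⟩ : ∃ m, κ m = κ n ∧ c m = false)] at ht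
      exact Bool.false_ne_true ht
    · intro hc
      obtain ⟨t, ht⟩ := hx n
      refine ⟨t, ?_⟩
      have h1 : ¬ ∃ m, κ m = κ n ∧ c m = false := by
        rintro ⟨m, hm, hcm⟩
        rw [hκ hm, hc] at hcm
        exact Bool.false_ne_true hcm.symm
      simp only [drop, if_neg h1]
      exact ht
  obtain ⟨σ, hσ⟩ := h
  funext n
  rw [Bool.eq_iff_iff, ← key c n, ← key d n]
  constructor
  · rintro ⟨t, ht⟩
    exact ⟨⇑σ ∘ t, by rw [hσ]; exact ht⟩
  · rintro ⟨t, ht⟩
    refine ⟨⇑σ.symm ∘ t, ?_⟩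
    rw [← hσ]
    have : (⇑σ ∘ (⇑σ.symm ∘ t)) = t := by funext l; simp
    rw [this]
    exact ht

/-- The branch vertices of a clique subdivision have infinite degree. -/
theorem branch {x : RS a} (h : HasCliqueSubdivision (gaifman x)) :
    ∃ v : ℕ → ℕ, Function.Injective v ∧ ∀ n, (nbr x (v n)).Infinite := by
  obtain ⟨v, hv, P, hP1, hP2, hP3⟩ := h
  refine ⟨v, hv, fun n => ?_⟩
  have hne : ∀ m, v n ≠ v (n + 1 + m) := fun m h' => by
    have := hv h'
    omega
  have hnil : ∀ m, ¬ (P n (n + 1 + m)).Nil := fun m h' => hne m h'.eq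
  have hadj : ∀ m, (gaifman x).Adj (v n) (P n (n + 1 + m)).snd := fun m =>
    SimpleGraph.Walk.adj_snd (hnil m)
  have hmem : ∀ m, (P n (n + 1 + m)).snd ∈ (P n (n + 1 + m)).support := fun m =>
    SimpleGraph.Walk.getVert_mem_support _ _
  have hinj : Function.Injective fun m => (P n (n + 1 + m)).snd := by
    intro m m' hmm
    by_contra hne'
    simp only at hmm
    have h1 := hmem m'
    rw [← hmm] at h1
    obtain ⟨k, hk⟩ := hP3 n (n + 1 + m) n (n + 1 + m') (by omega) (by omega)
      (by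
        intro h'
        rw [Prod.mk.injEq] at h'
        omega) _ (hmem m) h1
    have h2 := hmem m
    rw [hk] at h2 h1
    have h3 := hP2 n (n + 1 + m) k (by omega) h2
    have h4 := hP2 n (n + 1 + m') k (by omega) h1
    have h5 : k ≠ n := by
      intro h'
      rw [h'] at hk
      exact (hadj m).ne hk.symm
    omega
  refine Set.Infinite.mono ?_ (Set.infinite_range_of_injective hinj)
  rintro _ ⟨m, rfl⟩
  obtain ⟨h1, i, t, h2, h3, h4⟩ := hadj m
  exact ⟨h1.symm, i, t, h2, h3, h4⟩

/-- Vaught's conjecture for classes closed under weak substructures. -/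
theorem mono_main (a : ℕ → ℕ) (K : Set (RS a)) (hK : MeasurableSet K)
    (hinv : ∀ x y, RIso x y → (x ∈ K ↔ y ∈ K))
    (hcl : ∀ x ∈ K, ∀ y : RS a, (∀ i, ¬ 2 ≤ a i → y i = x i) →
      (∀ i t, y i t = true → x i t = true) → y ∈ K) : Dich K := by
  classical
  by_cases h : ∀ x ∈ K, ¬ HasCliqueSubdivision (gaifman x)
  · exact Pool.Agent.H533R2.VS.vs_plain a _ (Pool.Agent.H533R2.VS.vs_sparse a) K hK hinv h
  right
  push Not at h
  obtain ⟨x, hx, hsub⟩ := h
  by_cases hinf : {i | 2 ≤ a i ∧ ∃ t, x i t = true}.Infinite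
  · let κ : ℕ → ℕ := Nat.nth (fun i => 2 ≤ a i ∧ ∃ t, x i t = true)
    have hκ : Function.Injective κ := (Nat.nth_strictMono hinf).injective
    have hκ2 : ∀ n, 2 ≤ a (κ n) ∧ ∃ t, x (κ n) t = true := fun n =>
      Nat.nth_mem_of_infinite hinf n
    refine ⟨drop x κ, drop_cont x hκ, fun c => ?_,
      fun c d hcd => drop_inj hκ (fun n => (hκ2 n).2) hcd⟩
    refine hcl x hx _ (fun i hi => ?_) (fun i t ht => ?_)
    · funext t
      have h1 : ¬ ∃ n, κ n = i ∧ c n = false := by
        rintro ⟨n, hn, -⟩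
        rw [← hn] at hi
        exact hi (hκ2 n).1
      simp only [drop, if_neg h1]
    · simp only [drop] at ht
      split_ifs at ht
      exact ht
  · rw [Set.not_infinite] at hinf
    obtain ⟨r, hr⟩ : ∃ r, ∀ e : Tu x, (sup x e).card ≤ r := by
      refine ⟨hinf.toFinset.sup a, fun e => ?_⟩
      refine (Finset.card_image_le).trans ?_
      rw [Finset.card_univ, Fintype.card_fin]
      exact Finset.le_sup (f := a) (hinf.mem_toFinset.2 ⟨e.2.2, e.1.2, e.2.1⟩)
    by_cases hno : ∀ F, ¬ Good (sup x) F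
    · exfalso
      obtain ⟨W, hW⟩ := bounded_of_not_good (sup x) hr hno
      obtain ⟨v, hv, hv2⟩ := branch hsub
      have h1 : ∃ n, v n ∉ W := by
        by_contra hc
        push Not at hc
        have h2 : (range v).Finite := W.finite_toSet.subset (by
          rintro _ ⟨n, rfl⟩
          exact hc n)
        exact Set.infinite_range_of_injective hv h2
      obtain ⟨n, hn⟩ := h1
      refine hv2 n ((hW _ hn).subset ?_)
      rintro w ⟨h3, i, t, h4, h5, h6⟩
      have hi : 2 ≤ a i := by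
        obtain ⟨j, hj⟩ := h5
        obtain ⟨k, hk⟩ := h6
        by_contra hlt
        have : j = k := by
          have := j.2
          have := k.2
          exact Fin.ext (by omega)
        apply h3
        rw [← hj, ← hk, this]
      exact ⟨⟨⟨i, t⟩, h4, hi⟩, mem_sup.2 h5, mem_sup.2 h6⟩
    · push Not at hno
      obtain ⟨F, hF⟩ := hno
      obtain ⟨F', D, h1, h2, h3, h4, h5, h6⟩ := seq_of_good (sup x) hF
      have hP : Pcs x F' D := ⟨h1, h2, h3, h4, h5, h6⟩
      refine ⟨keep x D, hP.cont, fun c => ?_, fun c d hcd => hP.inj hcd⟩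
      refine hcl x hx _ (fun i hi => ?_) (fun i t ht => ?_)
      · funext t
        simp only [keep, if_neg hi]
      · by_cases hi : 2 ≤ a i
        · obtain ⟨n, h7, -⟩ := (keep_true hi).1 ht
          exact h7.1
        · simp only [keep, if_neg hi] at ht
          exact ht

end Pool.Agent.TH783.Pol
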